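import Pool.Agent.Q258.MT.AsmAll
import Pool.Agent.Q258.MT.Alg11

set_option autoImplicit false

/-!
The monotone triangle polynomial at the row `2n, 2n, 2n-2, 2n-2, ..., 2, 2`.
-/

namespace Pool.Agent.Results.MP_7863f5_co.DuplicatedEvenRow

open Pool.Agent.Q258.MT

/-- The sequence `2, 4, ..., 2 (n + 1)` (positions counted from `0`). -/
def evens (n : ℕ) : Fin (n + 1) → ℤ := fun q => 2 * ((q : ℕ) + 1)

/-- The sequence `2 (n + 1), 2 (n + 1), 2 n, 2 n, ..., 2, 2` of length `2 (n + 1)` (positions counted
from `0`). -/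
def doubled (n : ℕ) : Fin (2 * n + 1 + 1) → ℤ := fun q => 2 * ((n : ℤ) + 1 - (((q : ℕ) / 2 : ℕ) : ℤ))

theorem evl_getElem (k : ℕ) : ∀ (j i : ℕ) (hi : i < (evl j k).length), (evl j k)[i] = 2 * ((j : ℤ) + i + 1) := by
  induction k with
  | zero => intro j i hi; simp [evl] at hi
  | succ k ih =>
    intro j i hi
    cases i with
    | zero => simp [evl]
    | succ i =>
      simp only [evl, List.getElem_cons_succ]
      rw [ih (j + 1) i (by simpa [evl] using hi)]
      push_cast; ring

theorem Ew_getElem (n : ℕ) : ∀ (i : ℕ) (hi : i < (Ew n).length), (Ew n)[i] = 2 * ((n : ℤ) - ((i / 2 : ℕ) : ℤ)) := by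
  induction n with
  | zero => intro i hi; simp [Ew] at hi
  | succ n ih =>
    intro i hi
    match i, hi with
    | 0, _ => simp [Ew]
    | 1, _ => simp [Ew]
    | i + 2, hi =>
      simp only [Ew, List.getElem_cons_succ]
      rw [ih i (by simpa [Ew] using hi)]
      have : (i + 2) / 2 = i / 2 + 1 := by omega
      rw [this]
      push_cast; ring

theorem ofFn_evens (n : ℕ) : List.ofFn (evens n) = evl 0 (n + 1) := by
  apply ofFn_eq_of_getElem
  · intro q hq
    rw [evl_getElem]
    simp only [evens]
    push_cast; ring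
  · rw [evl_length]

theorem ofFn_doubled (n : ℕ) : List.ofFn (doubled n) = Ew (n + 1) := by
  apply ofFn_eq_of_getElem
  · intro q hq
    rw [Ew_getElem]
    simp only [doubled]
    push_cast; ring
  · rw [Ew_length]; ring

theorem evens_mono (n : ℕ) : StrictMono (evens n) := by
  intro a b hab
  have : (a : ℕ) < (b : ℕ) := hab
  simp only [evens]
  omega

/-- **The value at a duplicated even row.** For every `n` there is exactly one monotone triangle
polynomial in `n + 1` variables. For all `n ≥ 1` the value of the monotone triangle polynomial in `2 n`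
variables at `2n, 2n, 2n-2, 2n-2, ..., 2, 2` is equal to the value of the monotone triangle polynomial in
`n` variables at `2, 4, ..., 2n`, the number of monotone triangles with this bottom row.
(In the statement `n` is replaced by `n + 1`.) -/
theorem result :
    (∀ n : ℕ, ∃! p : MvPolynomial (Fin (n + 1)) ℚ, IsMTPoly n p) ∧
    ∀ (n : ℕ) (p : MvPolynomial (Fin (n + 1)) ℚ) (q : MvPolynomial (Fin (2 * n + 1 + 1)) ℚ),
      IsMTPoly n p → IsMTPoly (2 * n + 1) q →
        MvPolynomial.eval (fun i => (evens n i : ℚ)) p = MvPolynomial.eval (fun i => (doubled n i : ℚ)) q ∧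
        MvPolynomial.eval (fun i => (evens n i : ℚ)) p = mtCount n (evens n) := by
  refine ⟨existsUnique_mtPoly, fun n p q hp hq => ⟨?_, hp _ (evens_mono n)⟩⟩
  rw [hp.eval_eq, hq.eval_eq, ofFn_evens, ofFn_doubled]
  exact (al_Ew (n + 1)).symm

end Pool.Agent.Results.MP_7863f5_co.DuplicatedEvenRow
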